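import Pool.Agent.Q71.DN.Defs

set_option autoImplicit false

/-!
# Project DN, job DN-10: existence of a pair with many tiles
-/

namespace Pool.Agent.Q190.DN

open Finset Pool.Agent.Q71.DN

theorem sum_lcell {D : ℕ} (hD : 1 ≤ D) (S w b s : ℕ) :
    ∑ j : Fin (D + 1), lcell S w b s j = b + s * w + (S - 1 - s) * w := by
  obtain ⟨E, rfl⟩ : ∃ E, D = E + 1 := ⟨D - 1, by omega⟩
  rw [Fin.sum_univ_succ, Fin.sum_univ_succ]
  have h : ∀ i : Fin E, lcell S w b s (i.succ.succ) = 0 := by
    intro i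
    simp [lcell]
  have h1 : lcell S w b s (Fin.succ (0 : Fin (E + 1))) = (S - 1 - s) * w := by
    simp [lcell]
  have h0 : lcell S w b s (0 : Fin (E + 1 + 1)) = b + s * w := by
    simp [lcell]
  rw [h0, h1, Finset.sum_congr rfl (fun i _ => h i)]
  simp

theorem tile {k l1 i n : ℕ} (hk : 0 < k) (hi : l1 ≤ i) :
    (i - l1) / k = n ↔ l1 + k * n ≤ i ∧ i < l1 + k * (n + 1) := by
  rw [Nat.div_eq_iff hk]
  have e1 : k * (n + 1) = k * n + k := by ring
  have e2 : n * k = k * n := by ring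
  rw [e1, e2]
  omega

theorem t_Pair (h8 : StmCell) (h9 : StmZero) : StmPair := by
  classical
  intro F _ _ m D t φ ψ hD hnet L hL hm
  set q := Fintype.card F with hq
  have hq2 : 2 ≤ q := Fintype.one_lt_card
  obtain ⟨k, hk⟩ : ∃ k, k = t + 2 := ⟨_, rfl⟩
  obtain ⟨P, hP⟩ : ∃ P, P = 2 * L - 1 := ⟨_, rfl⟩
  have hP1 : P + 1 = 2 * L := by omega
  obtain ⟨w, hw⟩ : ∃ w, w = 2 * (k * L) := ⟨_, rfl⟩
  have hwP : k * (P + 1) = w := by rw [hP1, hw]; ring
  have hwP' : k * P + k = w := by rw [← hwP]; ring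
  obtain ⟨S, hS⟩ : ∃ S, S = 4 * (k * q) := ⟨_, rfl⟩
  have hS1 : 1 ≤ S := by
    have : 0 < k * q := Nat.mul_pos (by omega) (by omega)
    omega
  rw [← hk, ← hP]
  rw [← hk, ← hw] at hm
  have hm' : (2 * S + 2 * D + 1) * w ≤ m := by
    have : 8 * (k * q) + 2 * D + 1 = 2 * S + 2 * D + 1 := by rw [hS]; ring
    rw [this] at hm
    exact hm
  -- expand everything linearly in `S w`, `D w`, `w`
  obtain ⟨X, hX⟩ : ∃ X, X = S * w := ⟨_, rfl⟩
  obtain ⟨Y, hY⟩ : ∃ Y, Y = D * w := ⟨_, rfl⟩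
  have hmX : 2 * X + 2 * Y + w ≤ m := by
    have : (2 * S + 2 * D + 1) * w = 2 * X + 2 * Y + w := by rw [hX, hY]; ring
    omega
  have hXw : w ≤ X := by rw [hX]; exact Nat.le_mul_of_pos_left w (by omega)
  have hYw : w ≤ Y := by rw [hY]; exact Nat.le_mul_of_pos_left w (by omega)
  have hkw : k ≤ w := by
    have : k * 1 ≤ k * (P + 1) := Nat.mul_le_mul_left k (by omega)
    omega
  obtain ⟨Z, hZ⟩ : ∃ Z, Z = k * ((D + 1) * P) := ⟨_, rfl⟩
  have hZk : k ≤ Z := by
    rw [hZ]
    exact Nat.le_mul_of_pos_right k (Nat.mul_pos (by omega) (by omega))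
  have hZw : Z ≤ Y + w := by
    have e : Z = (D + 1) * (k * P) := by rw [hZ]; ring
    have e2 : (D + 1) * (k * P) ≤ (D + 1) * w := Nat.mul_le_mul_left _ (by omega)
    have e3 : (D + 1) * w = Y + w := by rw [hY]; ring
    omega
  have hSw1 : (S - 1) * w = X - w := by rw [hX, Nat.sub_mul, one_mul]
  have hDw1 : (D - 1) * w = Y - w := by rw [hY, Nat.sub_mul, one_mul]
  obtain ⟨l1, hl1⟩ : ∃ l1, l1 = X + Y := ⟨_, rfl⟩
  obtain ⟨b, hb⟩ : ∃ b, b = m + 2 - Z - l1 - (X - w) := ⟨_, rfl⟩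
  have hbs : b + (X - w) + l1 + Z = m + 2 := by omega
  have ht : t + 2 = k := hk.symm
  obtain ⟨s, hs, I, hI, hIc, hsurj⟩ := h8 F m D t φ hD hnet S w b l1 hS1
    (by rw [hDw1, ← hX]; omega) (by rw [← hY]; omega)
  have hsw : s * w + (S - 1 - s) * w = X - w := by
    rw [← hSw1, ← Nat.add_mul]
    congr 1
    omega
  have hsw' : s * w + w ≤ X := by
    have : (s + 1) * w ≤ S * w := Nat.mul_le_mul_right w (by omega)
    rw [← hX] at this
    have e : (s + 1) * w = s * w + w := by ring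
    omega
  have hlw : ∀ j : Fin (D + 1), lcell S w b s j + w ≤ m := by
    intro j
    unfold lcell
    split_ifs <;> omega
  -- the defect
  have hIcard : I.card ≤ w := by
    have := Finset.card_le_card hI
    simpa using this
  set J := Ico l1 (l1 + w) \ I with hJ
  have hJc : J.card = w - I.card := by
    rw [hJ, Finset.card_sdiff_of_subset hI]
    simp
  have hrho : 2 * (q * J.card) ≤ L := by
    rw [← hJc] at hIc
    rw [hS, hw] at hIc
    have e : 4 * (k * q) * J.card = (2 * k) * (2 * (q * J.card)) := by ring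
    have e2 : 2 * (k * L) = (2 * k) * L := by ring
    rw [e, e2] at hIc
    exact Nat.le_of_mul_le_mul_left hIc (by omega)
  have hk0 : 0 < k := by omega
  -- the good tiles
  set A := (range (2 * L)).filter fun n => Even n ∧
    ∀ i, l1 + k * n ≤ i → i < l1 + k * (n + 1) → i ∈ I with hA
  have hAc : L ≤ A.card + J.card := by
    set Ev := (range (2 * L)).filter fun n => Even n with hEv
    have hEvc : Ev.card = L := by
      have : Ev = (range L).image (fun u => 2 * u) := by
        ext n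
        simp only [hEv, mem_filter, mem_range, mem_image]
        constructor
        · rintro ⟨h1, u, hu⟩
          exact ⟨u, by omega, by omega⟩
        · rintro ⟨u, h1, h2⟩
          exact ⟨by omega, ⟨u, by omega⟩⟩
      rw [this, Finset.card_image_of_injective _ (fun a b h => by simpa using h), card_range]
    have hsplit : Ev.card ≤ A.card + (Ev \ A).card := by
      have hAE : A ⊆ Ev := by
        intro n hn
        simp only [hA, mem_filter] at hn
        simp only [hEv, mem_filter]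
        exact ⟨hn.1, hn.2.1⟩
      rw [Finset.card_sdiff_of_subset hAE]
      omega
    have hbad : (Ev \ A).card ≤ J.card := by
      have hch : ∀ n ∈ Ev \ A, ∃ i ∈ J, (i - l1) / k = n := by
        intro n hn
        rw [mem_sdiff] at hn
        have h1 : n < 2 * L ∧ Even n := by simpa [hEv] using hn.1
        have h2 : ¬ ∀ i, l1 + k * n ≤ i → i < l1 + k * (n + 1) → i ∈ I := by
          intro h
          apply hn.2
          simp only [hA, mem_filter, mem_range]
          exact ⟨h1.1, h1.2, h⟩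
        push Not at h2
        obtain ⟨i, hi1, hi2, hi3⟩ := h2
        have hle : k * (n + 1) ≤ w := by
          rw [← hwP]
          exact Nat.mul_le_mul_left k (by omega)
        refine ⟨i, ?_, (tile hk0 (by omega)).2 ⟨hi1, hi2⟩⟩
        rw [hJ, mem_sdiff, mem_Ico]
        exact ⟨⟨by omega, by omega⟩, hi3⟩
      choose! f hf1 hf2 using hch
      refine Finset.card_le_card_of_injOn f (fun n hn => hf1 n hn) ?_
      intro a ha b hb hab
      rw [← hf2 a ha, ← hf2 b hb, hab]
    omega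
  -- the vectors `d n`
  have hd : ∀ n : ℕ, ∃ v : Fin m → F, (∀ i ∈ I, φ 0 i v = if (i - l1) / k = n then
      (ψ 0 i).symm ⟨q - 1, by omega⟩ - (ψ 0 i).symm ⟨0, by omega⟩ else 0) ∧
      ∀ (j : Fin (D + 1)) (i : ℕ), lcell S w b s j ≤ i → i < lcell S w b s j + w →
        φ j.succ i v = 0 := by
    intro n
    obtain ⟨v, hv1, hv2⟩ := hsurj (Fin.cons (α := fun _ => ℕ → F) (fun i => if (i - l1) / k = n then
      (ψ 0 i).symm ⟨q - 1, by omega⟩ - (ψ 0 i).symm ⟨0, by omega⟩ else 0) (fun _ _ => 0))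
    refine ⟨v, fun i hi => ?_, fun j i h1 h2 => ?_⟩
    · rw [hv1 i hi, Fin.cons_zero]
    · rw [hv2 j i h1 h2, Fin.cons_succ]
  choose d hd1 hd2 using hd
  obtain ⟨T, hTA, hT0, hTc⟩ := h9 F A J (fun n i => φ 0 i (d n))
  obtain ⟨p0, hp1, hp2⟩ := hsurj (Fin.cons (α := fun _ => ℕ → F)
    (fun i => (ψ 0 i).symm ⟨0, by omega⟩)
    (fun j i => (ψ j.succ i).symm (if Even ((i - lcell S w b s j) / k) then ⟨q - 1, by omega⟩
      else ⟨0, by omega⟩)))
  have hTA' : ∀ n ∈ T, n < 2 * L ∧ Even n ∧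
      ∀ i, l1 + k * n ≤ i → i < l1 + k * (n + 1) → i ∈ I := by
    intro n hn
    have := hTA hn
    simpa [hA] using this
  refine ⟨l1, fun j => lcell S w b s j, T, p0, p0 + ∑ n ∈ T, d n, ?_, ?_, ?_⟩
  · rw [sum_lcell hD, ← hZ]
    omega
  · rw [← hq] at hTc
    have e : q * J.card = J.card * (q - 1) + J.card := by
      obtain ⟨r, hr⟩ : ∃ r, q = r + 1 := ⟨q - 1, by omega⟩
      rw [hr]
      simp only [Nat.add_sub_cancel]
      ring
    omega
  · have hmap : ∀ j i, φ j i (p0 + ∑ n ∈ T, d n) = φ j i p0 + ∑ n ∈ T, φ j i (d n) := by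
      intro j i
      rw [map_add, map_sum]
    have hpat : ∀ (j : Fin (D + 1)) (i : ℕ), lcell S w b s j ≤ i →
        i < lcell S w b s j + k * (P + 1) →
        φ j.succ i (p0 + ∑ n ∈ T, d n) = φ j.succ i p0 := by
      intro j i h1 h2
      rw [hwP] at h2
      rw [hmap, Finset.sum_eq_zero (fun n _ => hd2 n j i h1 h2), add_zero]
    have hpat0 : ∀ (j : Fin (D + 1)) (i : ℕ), lcell S w b s j ≤ i →
        i < lcell S w b s j + k * (P + 1) →
        (ψ j.succ i (φ j.succ i p0) : ℕ) =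
          if Even ((i - lcell S w b s j) / k) then Fintype.card F - 1 else 0 := by
      intro j i h1 h2
      rw [hwP] at h2
      rw [hp2 j i h1 h2, Fin.cons_succ]
      split_ifs with h <;> simp [← hq]
    refine ⟨fun n hn => ⟨(hTA' n hn).2.1, by rw [hP1]; exact (hTA' n hn).1⟩, by rw [hwP]; omega,
      fun j => by rw [hwP]; exact hlw j, hpat0, ?_, ?_, ?_⟩
    · intro j i h1 h2
      rw [hpat j i h1 h2]
      exact hpat0 j i h1 h2
    · intro i h1 h2 h3
      have hiI : i ∈ I := by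
        have h4 := (tile hk0 h1).1 (rfl : (i - l1) / k = (i - l1) / k)
        exact (hTA' _ h3).2.2 i h4.1 h4.2
      refine ⟨?_, ?_⟩
      · rw [hp1 i hiI, Fin.cons_zero]
        simp
      · rw [hmap, hp1 i hiI, Fin.cons_zero, Finset.sum_congr rfl (fun n _ => hd1 n i hiI),
          Finset.sum_ite_eq T ((i - l1) / k), if_pos h3]
        simp [← hq]
    · intro i h1 h2 h3
      rw [hwP] at h2
      rw [hmap]
      by_cases hiI : i ∈ I
      · rw [Finset.sum_congr rfl (fun n _ => hd1 n i hiI), Finset.sum_ite_eq T ((i - l1) / k),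
          if_neg h3, add_zero]
      · rw [hT0 i (by rw [hJ, mem_sdiff, mem_Ico]; exact ⟨⟨h1, h2⟩, hiI⟩), add_zero]

end Pool.Agent.Q190.DN
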